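import Pool.Agent.Lib.helper22.CXEtr

namespace Pool.Agent.Results.MP_ca1301_lc.Hard

open Pool.Agent.Lib.CX Pool.Agent.Lib.ER

/-- a polynomial as its list of terms: an integer coefficient and the list of variables of the monomial -/
abbrev Pl := List (ℤ × List ℕ)

/-- the value of a polynomial at a point of `ℝ^n`; a variable with index `≥ n` does not occur in valid inputs -/
noncomputable def val {n : ℕ} (p : Pl) (x : Fin n → ℝ) : ℝ :=
  (p.map fun m => (m.1 : ℝ) * (m.2.map fun i => if h : i < n then x ⟨i, h⟩ else 0).prod).sum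

/-- valid inputs `(n, f, g)`: only the variables `0, …, n-1` occur, and all monomials have degree at most four -/
def Valid (a : List Unit × Pl × Pl) : Prop :=
  ∀ m ∈ a.2.1 ++ a.2.2, m.2.length ≤ 4 ∧ ∀ i ∈ m.2, i < a.1.length

/-- affine polynomial projection -/
def Proj (a : List Unit × Pl × Pl) : Prop :=
  ∃ (A : Matrix (Fin a.1.length) (Fin a.1.length) ℝ) (b : Fin a.1.length → ℝ),
    ∀ x, val a.2.1 x = val a.2.2 (A.mulVec x + b)

def sq (e : Q4) : Pl :=
  [(1, [e.1 + 1, e.2.1 + 1, e.1 + 1, e.2.1 + 1]), (2, [e.1 + 1, e.2.1 + 1, e.2.2.1 + 1]),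
    (-2, [e.1 + 1, e.2.1 + 1, e.2.2.2 + 1]), (1, [e.2.2.1 + 1, e.2.2.1 + 1]), (-2, [e.2.2.1 + 1, e.2.2.2 + 1]),
    (1, [e.2.2.2 + 1, e.2.2.2 + 1])]

def red (a : List Unit × List Q4) : List Unit × Pl × Pl :=
  (() :: a.1, [(1, [0, 0, 0, 0])],
    [(1, [0, 0, 0, 0]), (1, [1, 1]), (1, [2, 2]), (-2, [2]), (1, [])] ++ a.2.flatMap sq)

noncomputable def ext {n : ℕ} (x : Fin n → ℝ) (i : ℕ) : ℝ := if h : i < n then x ⟨i, h⟩ else 0

theorem val_sq {n} (x : Fin n → ℝ) (E : List Q4) : val (E.flatMap sq) x =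
    (E.map fun e => (ext x (e.1 + 1) * ext x (e.2.1 + 1) + ext x (e.2.2.1 + 1) - ext x (e.2.2.2 + 1)) ^ 2).sum := by
  induction E with
  | nil => simp [val]
  | cons e E ih =>
    simp only [val, List.flatMap_cons, List.map_append, List.sum_append, List.map_cons, List.sum_cons] at ih ⊢
    rw [ih]
    simp only [sq, List.map_cons, List.sum_cons, List.prod_cons, List.map_nil, List.prod_nil, List.sum_nil, ext]
    push_cast
    ring

theorem val_red (a) (x : Fin (red a).1.length → ℝ) : val (red a).2.2 x = ext x 0 ^ 4 + ext x 1 ^ 2 + (ext x 2 - 1) ^ 2 +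
    (a.2.map fun e => (ext x (e.1 + 1) * ext x (e.2.1 + 1) + ext x (e.2.2.1 + 1) - ext x (e.2.2.2 + 1)) ^ 2).sum := by
  rw [← val_sq]
  simp only [val, red, List.map_append, List.sum_append, List.map_cons, List.sum_cons, List.prod_cons, List.map_nil,
    List.prod_nil, List.sum_nil, ext]
  push_cast
  ring

theorem val_f (a) (x : Fin (red a).1.length → ℝ) : val (red a).2.1 x = ext x 0 ^ 4 := by
  simp only [val, red, List.map_cons, List.sum_cons, List.prod_cons, List.map_nil, List.prod_nil, List.sum_nil, ext]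
  push_cast
  ring

theorem red_iff (N : List Unit) (E : List Q4) (h3 : 3 ≤ N.length) (hE : ∀ e ∈ E, Q4.lt N.length e) :
    (∃ y, Sat E y) ↔ Proj (red (N, E)) := by
  have hn : (red (N, E)).1.length = N.length + 1 := rfl
  constructor
  · rintro ⟨y, h0, h1, h⟩
    refine ⟨Matrix.diagonal fun i => if i.1 = 0 then 1 else 0, fun i => if i.1 = 0 then 0 else y (i.1 - 1), fun x => ?_⟩
    have e : ∀ i < N.length, ext (Matrix.mulVec (Matrix.diagonal fun i : Fin (red (N, E)).1.length =>
        if i.1 = 0 then (1 : ℝ) else 0) x + fun i => if i.1 = 0 then 0 else y (i.1 - 1)) (i + 1) = y i := fun i hi => by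
      simp [ext, hn, hi, Matrix.mulVec_diagonal]
    rw [val_f, val_red, e 0 (by omega), e 1 (by omega), h0, h1, List.sum_eq_zero]
    · simp [ext, hn, Matrix.mulVec_diagonal]
    · simp only [List.forall_mem_map]
      intro q hq
      obtain ⟨a, b, c, d⟩ := hE q hq
      rw [e _ a, e _ b, e _ c, e _ d, h q hq]; simp
  · rintro ⟨A, b, h⟩
    have h := h 0
    rw [val_f, val_red, Matrix.mulVec_zero, zero_add, show ext (0 : Fin _ → ℝ) 0 = 0 by simp [ext]] at h
    have p : ∀ r ∈ E.map fun e => (ext b (e.1 + 1) * ext b (e.2.1 + 1) + ext b (e.2.2.1 + 1) - ext b (e.2.2.2 + 1)) ^ 2,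
        0 ≤ r := List.forall_mem_map.2 fun _ _ => sq_nonneg _
    have p0 := List.sum_nonneg p
    have p1 : 0 ≤ ext b 0 ^ 4 := by positivity
    have p2 := sq_nonneg (ext b 1)
    have p3 := sq_nonneg (ext b 2 - 1)
    refine ⟨fun i => ext b (i + 1), pow_eq_zero_iff two_ne_zero |>.1 (by linarith),
      sub_eq_zero.1 (pow_eq_zero_iff two_ne_zero |>.1 (by linarith)), fun q hq => ?_⟩
    have := List.single_le_sum p _ (List.mem_map_of_mem hq)
    exact sub_eq_zero.1 (pow_eq_zero_iff two_ne_zero |>.1 (le_antisymm (by linarith) (sq_nonneg _)))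

def redV (a : List Unit × List Q4) : List Unit × Pl × Pl :=
  if 3 ≤ a.1.length ∧ ∀ e ∈ a.2, e.1 < a.1.length ∧ e.2.1 < a.1.length ∧ e.2.2.1 < a.1.length ∧ e.2.2.2 < a.1.length
  then red a else ([()], [(1, [0, 0, 0, 0])], [])

theorem redV_ok (a) : Valid (redV a) ∧ (redV a).2.1 = [(1, [0, 0, 0, 0])] := by
  unfold redV
  split_ifs with h
  · refine ⟨?_, rfl⟩
    simp only [Valid, red, List.forall_mem_append, List.forall_mem_cons, List.forall_mem_flatMap, sq, List.length_cons,
      List.length_nil, List.not_mem_nil, false_imp_iff, implies_true, and_true]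
    refine ⟨by omega, by omega, fun e he => ?_⟩
    have := h.2 e he
    omega
  · simp [Valid]

theorem result : Red ETR fun a : {a : List Unit × Pl × Pl // Valid a ∧ a.2.1 = [(1, [0, 0, 0, 0])]} => Proj a.1 := by
  refine etr_of_qs (fun a => ⟨redV a, redV_ok a⟩) (PT.subtype (by unfold redV red sq; fun_prop) _) fun N E h3 hE => ?_
  rw [red_iff N E h3 hE]
  simp only [redV]
  rw [if_pos ⟨h3, hE⟩]

end Pool.Agent.Results.MP_ca1301_lc.Hard
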